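import Pool.Agent.Q240.SD.Fin
import Pool.Agent.Q240.SD.Carl
import Pool.Agent.Q285.LV.Lo
import Pool.Agent.Q211.LV.Sb
import Pool.Agent.Q211.LV.AB
import Pool.Agent.Q211.LV.Dn
import Pool.Agent.Q204.LV.Ex
import Pool.Agent.Q26.SD.LoA
import Pool.Agent.Q38.SD.Pol
import Pool.Agent.Q204.SD.Gau

set_option autoImplicit false

/-!
# Project LV: the assembly of the parts
-/

namespace Pool.Agent.Q240.LV

theorem l_a : S_A := Q211.LV.a (Q285.LV.lo (Q26.SD.loA Q38.SD.pol) Q204.SD.gau Q211.LV.sb) Q204.LV.ex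

theorem l_b : S_B := Q211.LV.b Q204.LV.ex

theorem l_dn : S_Dn := Q211.LV.dn l_a l_b

end Pool.Agent.Q240.LV
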