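import Pool.Agent.Q240.SD.Stm
import Pool.Agent.Y23.We5

set_option autoImplicit false

/-!
# Project LV (zero density and large values of prime sums): definitions and statements of the lemma jobs

THEOREM. `X = exp (2 a) = T ^ C`, `s = l a` (`l` small and fixed). `E s t u = ∑ Λ(n) n^(-1/2 - i t) Kn s (log n - u) - ∫ exp ((1/2 - i t) x) Kn s (x - u) dx`, `Kn s` the Gaussian density of variance `2 s`: the error term in the prime number theorem, twisted with `n^(-i t)`,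
near `n = e^u`, `a ≤ u ≤ 2 a`. The number of `1`-separated points `t` in `[-T, T]` at which `|E| ≥ X ^ (σ - 1/2)` for some such `u` is equal to `N(σ, T)` up to `T ^ δ`; so every zero density theorem (in particular the density hypothesis) is an estimate for the large values of a prime sum, and conversely.
Every statement is a `def S_xxx : Prop`; prove `theorem xxx : S_xxx` (or from the other statements) in a file of your own. All about zeta (`Pool.Agent.Y23`). No bump function here.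
-/

open Filter Topology Finset MeasureTheory

namespace Pool.Agent.Q240.LV

open Pool.Agent.Y23 (TT Fa N2 Zt mu)
open Pool.Agent.Q240.SD (Ht Zr AtMost)

/-- the Gaussian density of variance `2 s` -/
noncomputable def Kn (s x : ℝ) : ℝ := Real.exp (-(x ^ 2 / (4 * s))) / Real.sqrt (4 * Real.pi * s)

/-- the error term of the prime sum -/
noncomputable def E (s t u : ℝ) : ℂ :=
  (∑' n : ℕ, ((ArithmeticFunction.vonMangoldt n / Real.sqrt n * Kn s (Real.log n - u) : ℝ) : ℂ) * Complex.exp (-(t * Real.log n * Complex.I))) -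
    ∫ x : ℝ, (Kn s (x - u) : ℂ) * Complex.exp ((1 / 2 - t * Complex.I) * x)

/-- the sum over the zeros (`w = ρ - 1/2`) -/
noncomputable def S (s t u : ℝ) : ℂ :=
  ∑' ρ : Zt, (mu ρ : ℂ) * Complex.exp (s * (((ρ : ℂ) - 1 / 2) - t * Complex.I) ^ 2 + u * ((ρ : ℂ) - 1 / 2))

/-- **Ex**: the explicit formula.
Proof. `Y23.explicit` (`Y23/We5.lean`) with `h w = exp (s (w - i t)² + u (w - i t))`: `Dec h (exp (s + u + s t²)) (s / 2)`, as `‖h w‖ = exp (s (x² - (y - t)²) + u x)` and `-s (y - t)² ≤ -(s / 2) y² + s t²`. The sum over the zeros is `exp (-i t u) S s t u`. `h (1/2) = ∫ Kn s (x - u) exp ((1/2 - i t) x) dx` (Gaussian integral),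
`‖h (-1/2)‖ ≤ exp (s / 4 - u / 2) ≤ 1`. `‖∫ DG y h(i y) dy‖ ≤ ∫ C Lg y exp (-s (y - t)²) dy ≤ C' log (3 + |t|)` (`DG_bd`, `Lg y ≤ Lg t + |y - t|`, `s ≥ 2`). `JJ h L = 2 π exp (-L/2 - i t L) Kn s (L - u)`, `JJ (h ∘ neg) L = 2 π exp (-L/2 + i t L) Kn s (L + u)` (Gaussian Fourier transform); the second part:
`Kn s (L + u) ≤ exp (-L)` for `L ≥ 0`, `u ≥ s` (`(L + u)² ≥ 4 L u`), so the sum is at most `∑ Λ(n) n^(-3/2)`. Summability of the first part: for instance `exp (-(L - u)²/(4 s)) ≤ exp (C - L)`. -/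
def S_Ex : Prop := ∃ K : ℝ, 0 < K ∧ ∀ s t u : ℝ, 2 ≤ s → s ≤ u → |‖E s t u‖ - ‖S s t u‖| ≤ K * Real.log (3 + |t|)

/-- **Sb**: port of `S_SzB` (`Q211/SD/SzB.lean`) without `ψ`. -/
def S_Sb : Prop := ∃ K : ℝ, 0 < K ∧ ∀ s t u : ℝ, 2 ≤ s → 0 ≤ u →
  (Summable fun ρ : Zt => (mu ρ : ℝ) * ‖Complex.exp (s * (((ρ : ℂ) - 1 / 2) - t * Complex.I) ^ 2 + u * ((ρ : ℂ) - 1 / 2))‖) ∧
  ‖S s t u‖ ≤ K * Real.exp (s / 4 + u / 2) * Real.log (3 + |t|)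

/-- **Lo**: port of `S_Lo` (`Q285/SD/Lo.lean`, `Lo2.lean`) without `ψ` (`Ps ψ _ ^ 2` replaced by `1`). Uses `SD.S_LoA`, `SD.S_Gau`, `S_Sb`. -/
def S_Lo : Prop := ∀ δ l : ℝ, 0 < δ → δ ≤ 1 / 2 → 0 < l → l ≤ 1 → ∃ C0 : ℝ, ∀ C : ℝ, C0 ≤ C → ∃ A : ℝ, ∀ a : ℝ, A ≤ a →
  ∀ ρ0 : Zt, 1 / 2 ≤ (ρ0 : ℂ).re → |(ρ0 : ℂ).im| ≤ Ht C a → ∃ t b : ℝ, |t - (ρ0 : ℂ).im| ≤ 1 ∧ (1 - 3 * δ / 16) * a ≤ b ∧ b ≤ (1 - 2 * δ / 16) * a ∧
    Real.exp (2 * a * ((ρ0 : ℂ).re - 1 / 2 - δ / 2)) ≤ ‖S (l * a) t (2 * b)‖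

/-- **Nr**: a large value comes from a near zero.
Proof. `l0 = min 1 δ`, `R = 4 / sqrt l + 2`, `C0 = 1`. Suppose that all the zeros with `|Im ρ - t| ≤ R` have `Re ρ - 1/2 < η - δ`. Each of them contributes at most `mu exp (s / 4 + u (η - δ)) ≤ mu exp (a δ / 4 + 2 a (η - δ))` (`η - δ ≥ 0`, and `u (Re ρ - 1/2) ≤ u (η - δ)`), and `∑ mu ≤ K R log (3 + 3 (T + R)) ≤ K' a` (`cw`, `Q240/EW/Cw.lean`; or from
`zsum_le`: `∑ mu ≤ (1 + R²) ∑ mu / (1 + (Im - t)²)`). The others contribute at most `mu exp (s / 4 + a - s (Im ρ - t)²)`, `s (Im ρ - t)² ≥ 8 a + (Im ρ - t)²` (`s = l a`, `l R² ≥ 16`, `s ≥ 2`), `exp (-y²) ≤ 1 / (1 + y²)`, `zsum_le`. So `‖S‖ < exp (2 a η)` for large `a`. -/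
def S_Nr : Prop := ∀ δ : ℝ, 0 < δ → ∃ l0 : ℝ, 0 < l0 ∧ ∀ l : ℝ, 0 < l → l ≤ l0 → ∃ R C0 : ℝ, 0 < R ∧ ∀ C : ℝ, C0 ≤ C → ∃ A : ℝ, ∀ a t u η : ℝ, A ≤ a →
  |t| ≤ Ht C a → a ≤ u → u ≤ 2 * a → δ ≤ η → Real.exp (2 * a * η) ≤ ‖S (l * a) t u‖ → ∃ ρ : Zt, |(ρ : ℂ).im - t| ≤ R ∧ η - δ ≤ (ρ : ℂ).re - 1 / 2

/-- **A**: every zero gives a large value. From `S_Lo` (with `δ' = min δ (1/2)`) and `S_Ex`: `‖E‖ ≥ exp (2 a (β - δ/2)) - K log (3 + |t|)`, `β = Re ρ - 1/2 ≥ δ`; `log (3 + |t|) ≤ 2 a / C + 2`, and `exp (2 a (β - δ/2)) - exp (2 a (β - δ)) ≥ exp (a δ) (1 - exp (- a δ)) ≥ K (2 a / C + 2)` for large `a`. `u = 2 b`. -/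
def S_A : Prop := ∀ δ l : ℝ, 0 < δ → 0 < l → l ≤ 1 → ∃ C0 : ℝ, ∀ C : ℝ, C0 ≤ C → ∃ A : ℝ, ∀ a : ℝ, A ≤ a →
  ∀ ρ : Zt, 1 / 2 + δ ≤ (ρ : ℂ).re → |(ρ : ℂ).im| ≤ Ht C a → ∃ t u : ℝ, |t - (ρ : ℂ).im| ≤ 1 ∧ a ≤ u ∧ u ≤ 2 * a ∧
    Real.exp (2 * a * ((ρ : ℂ).re - 1 / 2 - δ)) ≤ ‖E (l * a) t u‖

/-- **B**: every large value comes from a zero. From `S_Nr` (with `δ / 2`) and `S_Ex`: `‖S‖ ≥ exp (2 a η) - K log (3 + |t|) ≥ exp (2 a (η - δ/2))` for `η ≥ δ` and large `a`. -/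
def S_B : Prop := ∀ δ : ℝ, 0 < δ → ∃ l0 : ℝ, 0 < l0 ∧ l0 ≤ 1 ∧ ∀ l : ℝ, 0 < l → l ≤ l0 → ∃ R C0 : ℝ, 0 < R ∧ ∀ C : ℝ, C0 ≤ C → ∃ A : ℝ, ∀ a t u η : ℝ, A ≤ a →
  |t| ≤ Ht C a → a ≤ u → u ≤ 2 * a → δ ≤ η → Real.exp (2 * a * η) ≤ ‖E (l * a) t u‖ → ∃ ρ : Zt, |(ρ : ℂ).im - t| ≤ R ∧ η - δ ≤ (ρ : ℂ).re - 1 / 2

/-- at most `B` separated points of `[-T, T]` with a large value -/
def Few (l C a η B : ℝ) : Prop := ∀ F : Finset ℝ, (∀ x ∈ F, ∀ y ∈ F, x ≠ y → 1 ≤ |x - y|) →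
  (∀ t ∈ F, |t| ≤ Ht C a ∧ ∃ u : ℝ, a ≤ u ∧ u ≤ 2 * a ∧ Real.exp (2 * a * η) ≤ ‖E (l * a) t u‖) → (F.card : ℝ) ≤ B

/-- **Dn**: the equivalence with density theorems. Uses `S_A`, `S_B` (compare `Q31/SD/Dn.lean`).
Proof. `→`: given `σ, e` take `δ` small (continuity) with `σ - 2 δ > 1/2`; `l0` of `S_B` for `δ`. For `F` as in `Few` with `η = σ - 1/2 ≥ δ` choose for each `t ∈ F` a zero `ρ(t)`, `|Im ρ(t) - t| ≤ R`, `Re ρ(t) ≥ σ - δ`; a zero is `ρ(t)` for at most `2 R + 2` points `t` (separated points of an interval of length `2 R`), so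
`card F ≤ (2 R + 2) #{ρ : Re ρ ≥ σ - δ, |Im ρ| ≤ T + R} ≤ (2 R + 2) (2 (T + R)^(D (σ - δ) + e/4) + K)` (conjugation and the finitely many real zeros as in `Q31/SD/Dn.lean`, `card_all`) `≤ T^(D σ + e)` for large `a`.
`←`: given `σ, e` take `δ` small, `l` = the `l0` for `σ - δ`, `e / 4`; for large `T` let `a = C log T / 2`, `Ht C a = T` (but with the hypothesis used for the points `t` with `|t| ≤ T + 1`: use `a' = C log (T + 1) / 2` instead, `Ht C a' = T + 1`). For each integer `n` in `[0, T]` for which there is a zero with `Re ρ ≥ σ`, `n ≤ Im ρ < n + 1`, choose one such zero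
and the point `t_n` given by `S_A`; the `t_n` for `n` in one residue class modulo `4` are `1`-separated (`|t_n - Im ρ| ≤ 1`), and `‖E‖ ≥ exp (2 a (σ - 1/2 - δ))` there, so their number is `≤ (T+1)^(D (σ - δ) + e/4)` by `Few`; each window has at most `K log (3 + 3 T)` zeros with multiplicity (`cw`). So `N(σ, T) ≤ 4 K log (3 + 3 T) (T+1)^(D (σ - δ) + e/4) ≤ T^(D σ + e)`. -/
def S_Dn : Prop := ∀ D : ℝ → ℝ, ContinuousOn D (Set.Ioc (1 / 2) 1) → (∀ σ : ℝ, 1 / 2 < σ → σ ≤ 1 → 0 ≤ D σ) →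
  ((∀ σ e : ℝ, 1 / 2 < σ → σ ≤ 1 → 0 < e → ∃ T0 : ℝ, ∀ T : ℝ, T0 ≤ T → AtMost (Zr σ T) (T ^ (D σ + e))) ↔
    ∀ σ e : ℝ, 1 / 2 < σ → σ ≤ 1 → 0 < e → ∃ l0 : ℝ, 0 < l0 ∧ ∀ l : ℝ, 0 < l → l ≤ l0 → ∃ C0 : ℝ, ∀ C : ℝ, C0 ≤ C → ∃ A : ℝ, ∀ a : ℝ, A ≤ a →
      Few l C a (σ - 1 / 2) ((Ht C a) ^ (D σ + e)))

end Pool.Agent.Q240.LV
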